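import Pool.Agent.TH462.HL2.Bridge

set_option autoImplicit false

/-! Trees of bounded degree: the path minimises weighted proper colourings, under a condition on
the weights which makes all messages decrease with the weight. -/

namespace Pool.Agent.TH886.HLD

open Finset Pool.Agent.TH462.HL2 Pool.W650.HL Pool.Agent.TH462.HL2.RT

variable {r : ℕ} {w : Fin r → ℝ} {d : ℕ}

/-- the sum of the smaller of `w k`, `w j` over all `k` different from `i` and `j` -/
noncomputable def Rr (w : Fin r → ℝ) (i j : Fin r) : ℝ :=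
  ∑ k ∈ univ.filter (fun k => k ≠ i ∧ k ≠ j), min (w k) (w j)

def Cond (w : Fin r → ℝ) (d : ℕ) : Prop :=
  ∀ i j, w i < w j → w i * (w j + Rr w i j) ^ d ≤ w j * (w i + Rr w i j) ^ d

structure Q (w : Fin r → ℝ) (d s : ℕ) (f : Fin r → ℝ) : Prop where
  pos : ∀ i, 0 < f i
  dec : ∀ i j, w i ≤ w j → f j ≤ f i
  gr : ∀ i j, w i ≤ w j → w i ^ s * f i ^ d ≤ w j ^ s * f j ^ d

theorem Q.one : Q w d 0 (fun _ => 1) :=
  ⟨fun _ => one_pos, fun _ _ _ => le_refl _, fun _ _ _ => by simp⟩

theorem Q.mul (hw : ∀ i, 0 < w i) {s t : ℕ} {f g : Fin r → ℝ} (hf : Q w d s f) (hg : Q w d t g) :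
    Q w d (s + t) (fun i => f i * g i) := by
  refine ⟨fun i => mul_pos (hf.pos i) (hg.pos i), fun i j h => ?_, fun i j h => ?_⟩
  · exact mul_le_mul (hf.dec i j h) (hg.dec i j h) (hg.pos j).le (hf.pos i).le
  · have h1 := hf.gr i j h
    have h2 := hg.gr i j h
    calc w i ^ (s + t) * (f i * g i) ^ d = (w i ^ s * f i ^ d) * (w i ^ t * g i ^ d) := by
          rw [pow_add, mul_pow]; ring
      _ ≤ (w j ^ s * f j ^ d) * (w j ^ t * g j ^ d) := by
          apply mul_le_mul h1 h2
          · have := hw i; have := hg.pos i; positivity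
          · have := hw j; have := hf.pos j; positivity
      _ = w j ^ (s + t) * (f j * g j) ^ d := by rw [pow_add, mul_pow]; ring

/-- `w f` increases -/
theorem Q.inc (hw : ∀ i, 0 < w i) (hd : 1 ≤ d) {s : ℕ} {f : Fin r → ℝ} (hf : Q w d s f)
    (hs : s ≤ d) (i j : Fin r) (h : w i ≤ w j) : w i * f i ≤ w j * f j := by
  have h1 := hf.gr i j h
  have hwi := hw i
  have hwj := hw j
  have fi := hf.pos i
  have fj := hf.pos j
  have h2 : (w i * f i) ^ d ≤ (w j * f j) ^ d := by
    calc (w i * f i) ^ d = w i ^ (d - s) * (w i ^ s * f i ^ d) := by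
          rw [mul_pow, ← mul_assoc, ← pow_add, Nat.sub_add_cancel hs]
      _ ≤ w j ^ (d - s) * (w j ^ s * f j ^ d) := by
          apply mul_le_mul _ h1
          · positivity
          · positivity
          · exact pow_le_pow_left₀ hwi.le h _
      _ = (w j * f j) ^ d := by
          rw [mul_pow, ← mul_assoc, ← pow_add, Nat.sub_add_cancel hs]
  by_contra hc
  push Not at hc
  have : (w j * f j) ^ d < (w i * f i) ^ d :=
    pow_lt_pow_left₀ hc (by positivity) (by omega)
  linarith

theorem split_two (g : Fin r → ℝ) {i j : Fin r} (hij : i ≠ j) :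
    ∑ k, g k = g i + g j + ∑ k ∈ univ.filter (fun k => k ≠ i ∧ k ≠ j), g k := by
  classical
  have h1 : (univ : Finset (Fin r)) = insert i (insert j (univ.filter (fun k => k ≠ i ∧ k ≠ j))) := by
    ext k
    simp only [mem_univ, mem_insert, mem_filter, true_and, true_iff]
    tauto
  conv_lhs => rw [h1]
  rw [Finset.sum_insert, Finset.sum_insert]
  · ring
  · simp
  · simp [hij]

theorem Q.mop (hr : 2 ≤ r) (hw : ∀ i, 0 < w i) (hd : 1 ≤ d) (hC : Cond w d) {s : ℕ}
    {f : Fin r → ℝ} (hf : Q w d s f) (hs : s ≤ d) : Q w d 1 (Mop w f) := by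
  have hinc := hf.inc hw hd hs
  have hpos : ∀ i, 0 < Mop w f i := by
    intro i
    obtain ⟨j, hj⟩ : ∃ j : Fin r, j ≠ i := by
      have : Nontrivial (Fin r) := Fin.nontrivial_iff_two_le.2 hr
      exact exists_ne i
    have e := split_two (fun k => w k * f k) hj.symm
    have : 0 ≤ ∑ k ∈ univ.filter (fun k => k ≠ i ∧ k ≠ j), w k * f k :=
      Finset.sum_nonneg fun k _ => (mul_pos (hw k) (hf.pos k)).le
    have := mul_pos (hw j) (hf.pos j)
    simp only [Mop]
    rw [e]
    linarith
  have hdec : ∀ i j, w i ≤ w j → Mop w f j ≤ Mop w f i := by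
    intro i j h
    have := hinc i j h
    simp only [Mop]
    linarith
  refine ⟨hpos, hdec, fun i j h => ?_⟩
  rcases eq_or_lt_of_le h with h | h
  · have e1 : Mop w f i = Mop w f j := le_antisymm (hdec j i h.ge) (hdec i j h.le)
    rw [e1, h]
  · have hij : i ≠ j := fun e => by rw [e] at h; exact lt_irrefl _ h
    have e := split_two (fun k => w k * f k) hij
    set P := ∑ k ∈ univ.filter (fun k => k ≠ i ∧ k ≠ j), w k * f k with hP
    have hPR : Rr w i j * f j ≤ P := by
      rw [hP, Rr, Finset.sum_mul]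
      apply Finset.sum_le_sum
      intro k _
      rcases le_total (w k) (w j) with hk | hk
      · rw [min_eq_left hk]
        exact mul_le_mul_of_nonneg_left (hf.dec k j hk) (hw k).le
      · rw [min_eq_right hk]
        exact hinc j k hk
    have hR : 0 ≤ Rr w i j := by
      unfold Rr
      exact Finset.sum_nonneg fun k _ => le_min (hw k).le (hw j).le
    have mi : Mop w f i = w j * f j + P := by
      simp only [Mop]; rw [e]; ring
    have mj : Mop w f j = w i * f i + P := by
      simp only [Mop]; rw [e]; ring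
    have hfij := hf.dec i j h.le
    have hwi := hw i
    have hwj := hw j
    have fj := hf.pos j
    set R := Rr w i j with hRdef
    have key : (w i + R) * Mop w f i ≤ (w j + R) * Mop w f j := by
      rw [mi, mj]
      have a1 : 0 ≤ (w j - w i) * (P - R * f j) :=
        mul_nonneg (by linarith) (by linarith)
      have a2 : 0 ≤ (w j + R) * w i * (f i - f j) :=
        mul_nonneg (by positivity) (by linarith)
      nlinarith
    have hc := hC i j h
    have q1 := hpos i
    have q2 := hpos j
    have s1 : (w i * Mop w f i ^ d) * (w i + R) ^ d ≤ (w j * Mop w f j ^ d) * (w i + R) ^ d := by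
      calc (w i * Mop w f i ^ d) * (w i + R) ^ d = w i * ((w i + R) * Mop w f i) ^ d := by
            rw [mul_pow]; ring
        _ ≤ w i * ((w j + R) * Mop w f j) ^ d := by
            apply mul_le_mul_of_nonneg_left _ hwi.le
            exact pow_le_pow_left₀ (by positivity) key _
        _ = (w i * (w j + R) ^ d) * Mop w f j ^ d := by rw [mul_pow]; ring
        _ ≤ (w j * (w i + R) ^ d) * Mop w f j ^ d := by
            apply mul_le_mul_of_nonneg_right hc (by positivity)
        _ = (w j * Mop w f j ^ d) * (w i + R) ^ d := by ring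
    have s2 : 0 < (w i + R) ^ d := by positivity
    rw [pow_one, pow_one]
    exact le_of_mul_le_mul_right s1 s2

/-! ### The pairing and the merging inequality -/

/-- pairing -/
noncomputable def ip (w f g : Fin r → ℝ) : ℝ := ∑ i, w i * (f i * g i)

theorem ip_mop (f g : Fin r → ℝ) : ip w f (Mop w g) = ip w (Mop w f) g := by
  simp only [ip, Mop]
  have h1 : ∑ i, w i * (f i * ((∑ j, w j * g j) - w i * g i))
      = (∑ i, w i * f i) * (∑ j, w j * g j) - ∑ i, w i * (f i * (w i * g i)) := by
    rw [Finset.sum_mul, ← Finset.sum_sub_distrib]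
    exact Finset.sum_congr rfl fun i _ => by ring
  have h2 : ∑ i, w i * (((∑ j, w j * f j) - w i * f i) * g i)
      = (∑ i, w i * f i) * (∑ j, w j * g j) - ∑ i, w i * (f i * (w i * g i)) := by
    rw [Finset.mul_sum, ← Finset.sum_sub_distrib]
    exact Finset.sum_congr rfl fun i _ => by ring
  rw [h1, h2]

/-- the matrix of the message operator -/
noncomputable def Am (w : Fin r → ℝ) : Matrix (Fin r) (Fin r) ℝ :=
  fun i j => if i = j then 0 else w j

theorem mop_mulVec (f : Fin r → ℝ) : Mop w f = (Am w).mulVec f := by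
  classical
  funext i
  simp only [Mop, Matrix.mulVec, dotProduct, Am]
  have : ∀ j, (if i = j then 0 else w j) * f j = w j * f j - if i = j then w j * f j else 0 := by
    intro j
    split_ifs <;> ring
  rw [Finset.sum_congr rfl fun j _ => this j, Finset.sum_sub_distrib]
  simp

theorem iter_mulVec (n : ℕ) (f : Fin r → ℝ) : (Mop w)^[n] f = (Am w ^ n).mulVec f := by
  induction n with
  | zero => simp
  | succ n ih =>
    rw [Function.iterate_succ_apply', ih, mop_mulVec, Matrix.mulVec_mulVec, ← pow_succ']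

theorem Am_nonneg (hw : ∀ i, 0 < w i) (n : ℕ) : ∀ i j, 0 ≤ (Am w ^ n) i j := by
  induction n with
  | zero =>
    intro i j
    rw [pow_zero, Matrix.one_apply]
    split_ifs <;> norm_num
  | succ n ih =>
    intro i j
    rw [pow_succ, Matrix.mul_apply]
    apply Finset.sum_nonneg
    intro k _
    apply mul_nonneg (ih i k)
    unfold Am
    split_ifs
    · exact le_refl _
    · exact (hw _).le

theorem Am_symm (n : ℕ) : (Am w ^ n).transpose * Matrix.diagonal w
    = Matrix.diagonal w * Am w ^ n := by
  have h1 : (Am w).transpose * Matrix.diagonal w = Matrix.diagonal w * Am w := by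
    ext i j
    rw [Matrix.mul_diagonal, Matrix.diagonal_mul, Matrix.transpose_apply]
    unfold Am
    by_cases h : i = j
    · simp [h]
    · rw [if_neg h, if_neg (Ne.symm h)]
  induction n with
  | zero => simp
  | succ n ih =>
    rw [pow_succ, Matrix.transpose_mul, Matrix.mul_assoc, ih, ← Matrix.mul_assoc, h1,
      Matrix.mul_assoc, ← pow_succ', pow_succ]

theorem Am_symm' (n : ℕ) (i j : Fin r) : w i * (Am w ^ n) i j = w j * (Am w ^ n) j i := by
  have h := congrFun (congrFun (Am_symm (w := w) n) i) j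
  rw [Matrix.mul_diagonal, Matrix.diagonal_mul, Matrix.transpose_apply] at h
  linarith

theorem merge (hw : ∀ i, 0 < w i) (n : ℕ) {h m : Fin r → ℝ}
    (hh : ∀ i j, w i ≤ w j → h j ≤ h i) (hm : ∀ i j, w i ≤ w j → m j ≤ m i) :
    ip w h ((Mop w)^[n] m) ≤ ip w (fun i => h i * m i) ((Mop w)^[n] (fun _ => 1)) := by
  classical
  have e1 : ip w h ((Mop w)^[n] m) = ∑ i, ∑ j, (w i * (Am w ^ n) i j) * (h i * m j) := by
    rw [iter_mulVec]
    simp only [ip, Matrix.mulVec, dotProduct]
    apply Finset.sum_congr rfl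
    intro i _
    rw [Finset.mul_sum, Finset.mul_sum]
    exact Finset.sum_congr rfl fun j _ => by ring
  have e2 : ip w (fun i => h i * m i) ((Mop w)^[n] (fun _ => 1))
      = ∑ i, ∑ j, (w i * (Am w ^ n) i j) * (h i * m i) := by
    rw [iter_mulVec]
    simp only [ip, Matrix.mulVec, dotProduct]
    apply Finset.sum_congr rfl
    intro i _
    rw [Finset.mul_sum, Finset.mul_sum]
    exact Finset.sum_congr rfl fun j _ => by ring
  have e3 : ∑ i, ∑ j, (w i * (Am w ^ n) i j) * (h i * m j)
      = ∑ i, ∑ j, (w i * (Am w ^ n) i j) * (h j * m i) := by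
    rw [Finset.sum_comm]
    apply Finset.sum_congr rfl
    intro i _
    apply Finset.sum_congr rfl
    intro j _
    rw [Am_symm' n j i]
  have e4 : ∑ i, ∑ j, (w i * (Am w ^ n) i j) * (h i * m i)
      = ∑ i, ∑ j, (w i * (Am w ^ n) i j) * (h j * m j) := by
    rw [Finset.sum_comm]
    apply Finset.sum_congr rfl
    intro i _
    apply Finset.sum_congr rfl
    intro j _
    rw [Am_symm' n j i]
  have e5 : 0 ≤ ∑ i, ∑ j, (w i * (Am w ^ n) i j) * ((h i - h j) * (m i - m j)) := by
    apply Finset.sum_nonneg
    intro i _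
    apply Finset.sum_nonneg
    intro j _
    apply mul_nonneg (mul_nonneg (hw i).le (Am_nonneg hw n i j))
    rcases le_total (w i) (w j) with hij | hij
    · exact mul_nonneg (by linarith [hh i j hij]) (by linarith [hm i j hij])
    · exact mul_nonneg_of_nonpos_of_nonpos (by linarith [hh j i hij]) (by linarith [hm j i hij])
  have e6 : ∑ i, ∑ j, (w i * (Am w ^ n) i j) * ((h i - h j) * (m i - m j))
      = (∑ i, ∑ j, (w i * (Am w ^ n) i j) * (h i * m i)
          + ∑ i, ∑ j, (w i * (Am w ^ n) i j) * (h j * m j))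
        - (∑ i, ∑ j, (w i * (Am w ^ n) i j) * (h i * m j)
          + ∑ i, ∑ j, (w i * (Am w ^ n) i j) * (h j * m i)) := by
    rw [← Finset.sum_add_distrib, ← Finset.sum_add_distrib, ← Finset.sum_sub_distrib]
    apply Finset.sum_congr rfl
    intro i _
    rw [← Finset.sum_add_distrib, ← Finset.sum_add_distrib, ← Finset.sum_sub_distrib]
    apply Finset.sum_congr rfl
    intro j _
    ring
  rw [e1, e2]
  rw [e6, ← e3, ← e4] at e5
  linarith

/-! ### Rooted trees with few children -/

/-- every proper vertex has at most `d` children -/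
def OK (d : ℕ) : RT → Prop
  | leaf => True
  | join t c => OK d t ∧ OK d c ∧ rd c ≤ d

theorem Q_msg (hr : 2 ≤ r) (hw : ∀ i, 0 < w i) (hd : 1 ≤ d) (hC : Cond w d) (t : RT) :
    OK d t → Q w d (rd t) (msgF w t) := by
  induction t with
  | leaf => intro _; exact Q.one
  | join t c h1 h2 =>
    intro h
    obtain ⟨a1, a2, a3⟩ := h
    exact Q.mul hw (h1 a1) (Q.mop hr hw hd hC (h2 a2) a3)

theorem Q_U (hr : 2 ≤ r) (hw : ∀ i, 0 < w i) (hd : 1 ≤ d) (hC : Cond w d) (n : ℕ) :
    Q w d 1 (U w (n + 1)) := by
  induction n with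
  | zero =>
    have : U w (0 + 1) = Mop w (fun _ => 1) := rfl
    rw [this]
    exact Q.mop hr hw hd hC Q.one (by omega)
  | succ n ih =>
    have : U w (n + 1 + 1) = Mop w (U w (n + 1)) := by
      unfold U
      rw [Function.iterate_succ_apply']
    rw [this]
    exact Q.mop hr hw hd hC ih hd

theorem U_add (a b : ℕ) : (Mop w)^[a] (U w b) = U w (a + b) := by
  unfold U
  rw [← Function.iterate_add_apply]

theorem main (hr : 2 ≤ r) (hw : ∀ i, 0 < w i) (hd : 1 ≤ d) (hC : Cond w d) (t : RT) :
    OK d t → ∀ (s : ℕ) (h : Fin r → ℝ), Q w d s h → s + rd t ≤ d + 1 →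
      ip w h (U w (size t - 1)) ≤ ip w h (msgF w t) := by
  induction t with
  | leaf =>
    intro _ s h _ _
    exact le_refl _
  | join t c h1 h2 =>
    intro hOK s h hQ hs
    obtain ⟨a1, a2, a3⟩ := hOK
    have hrd : rd (join t c) = rd t + 1 := rfl
    rw [hrd] at hs
    have pt := size_pos t
    have pc := size_pos c
    have Qt := Q_msg hr hw hd hC t a1
    -- first replace `c`
    have Qh : Q w d 1 (Mop w (fun i => h i * msgF w t i)) :=
      Q.mop hr hw hd hC (Q.mul hw hQ Qt) (by omega)
    have s1 := h2 a2 1 _ Qh (by omega)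
    have QU : Q w d 1 (U w (size c)) := by
      have := Q_U hr hw hd hC (size c - 1)
      rwa [Nat.sub_add_cancel pc] at this
    have s2 := h1 a1 (s + 1) _ (Q.mul hw hQ QU) (by omega)
    have s3 := merge hw (size t - 1) (h := h) (m := U w (size c)) hQ.dec QU.dec
    have eU : Mop w (U w (size c - 1)) = U w (size c) := by
      have : size c = (size c - 1) + 1 := by omega
      conv_rhs => rw [this]
      unfold U
      rw [Function.iterate_succ_apply']
    have e1 : ip w (Mop w (fun i => h i * msgF w t i)) (U w (size c - 1))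
        = ip w (fun i => h i * U w (size c) i) (msgF w t) := by
      rw [← ip_mop, eU]
      simp only [ip]
      exact Finset.sum_congr rfl fun i _ => by ring
    have e2 : ip w (Mop w (fun i => h i * msgF w t i)) (msgF w c)
        = ip w h (msgF w (join t c)) := by
      rw [← ip_mop]
      simp only [ip, msgF]
      exact Finset.sum_congr rfl fun i _ => by ring
    have e3 : ip w h ((Mop w)^[size t - 1] (U w (size c))) = ip w h (U w (size (join t c) - 1)) := by
      rw [U_add]
      congr 2
      rw [size]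
      omega
    have e4 : (Mop w)^[size t - 1] (fun _ => 1) = U w (size t - 1) := rfl
    rw [e1, e2] at s1
    rw [e3, e4] at s3
    linarith

end Pool.Agent.TH886.HLD
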