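import Pool.Agent.TH886.HLD.Core

set_option autoImplicit false

/-! From trees of bounded degree as simple graphs to rooted trees, and the final statement. -/

namespace Pool.Agent.TH886.HLD

open Finset Pool.Agent.TH462.HL2 Pool.W650.HL Pool.Agent.TH462.HL2.RT

theorem bridgeD {r : ℕ} (w : Fin r → ℝ) (d : ℕ) (N : ℕ) :
    ∀ (V : Type) [Fintype V] (G : SimpleGraph V), Fintype.card V = N + 1 → G.IsTree →
    ∀ R : V → RT, (∀ v, OK d (R v) ∧ rd (R v) + dg G v ≤ d + 1) →
    ∃ T : RT, size T = ∑ v, size (R v) ∧ (OK d T ∧ rd T ≤ d + 1) ∧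
      Zf w G (fun v => msgF w (R v)) = ∑ i, w i * msgF w T i := by
  induction N with
  | zero =>
    intro V _ G hc hG R hR
    obtain ⟨x, hx⟩ := Fintype.card_eq_one_iff.1 hc
    refine ⟨R x, ?_, ⟨(hR x).1, by have := (hR x).2; omega⟩, Zf_single w G _ hc x⟩
    rw [Fintype.sum_eq_single x]
    intro y hy
    exact absurd (hx y) hy
  | succ N ih =>
    intro V _ G hc hG R hR
    classical
    obtain ⟨c⟩ := hG.connected.nonempty
    obtain ⟨l, u, hlc, hleaf⟩ := exleaf' V G hG c (by omega)
    have hul : u ≠ l := hleaf.1.ne'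
    obtain ⟨ht, hdeg⟩ := deltree' V G l u hG hleaf
    have hdl : dg G l = 1 := (dgleaf' V G l).2 ⟨u, hleaf⟩
    have hcard : Fintype.card {x : V // x ≠ l} = N + 1 := by
      rw [card_del, hc]
      rfl
    let R' : {x : V // x ≠ l} → RT := fun v => if v.1 = u then join (R u) (R l) else R v.1
    have hR' : ∀ v, OK d (R' v) ∧ rd (R' v) + dg (del G l) v ≤ d + 1 := by
      intro v
      have hl := hR l
      by_cases hv : v.1 = u
      · have hu := hR u
        have h1 := (hdeg v).1 hv
        rw [hv] at h1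
        have e : R' v = join (R u) (R l) := by simp [R', hv]
        rw [e]
        refine ⟨⟨hu.1, hl.1, by omega⟩, ?_⟩
        have : rd (join (R u) (R l)) = rd (R u) + 1 := rfl
        omega
      · have h1 := (hdeg v).2 hv
        have e : R' v = R v.1 := by simp [R', hv]
        rw [e, h1]
        exact hR v.1
    obtain ⟨T, hT1, hT2, hT3⟩ := ih {x : V // x ≠ l} (del G l) hcard ht R' hR'
    refine ⟨T, ?_, hT2, ?_⟩
    · rw [hT1]
      have e1 : ∑ v : {x : V // x ≠ l}, size (R' v)
          = ∑ v : {x : V // x ≠ l}, size (R v.1) + size (R l) := by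
        have : ∀ v : {x : V // x ≠ l}, size (R' v)
            = size (R v.1) + (if v = ⟨u, hul⟩ then size (R l) else 0) := by
          intro v
          by_cases hv : v.1 = u
          · have h2 : v = ⟨u, hul⟩ := Subtype.ext hv
            simp [R', h2, size]
          · have h2 : v ≠ ⟨u, hul⟩ := fun h => hv (congrArg Subtype.val h)
            simp [R', hv, h2]
        rw [Finset.sum_congr rfl fun v _ => this v, Finset.sum_add_distrib]
        simp
      have e2 : ∑ v, size (R v) = size (R l) + ∑ v : {x : V // x ≠ l}, size (R v.1) := by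
        rw [← Finset.add_sum_erase univ (fun v => size (R v)) (Finset.mem_univ l)]
        congr 1
        rw [← Finset.sum_subtype (univ.erase l) (p := fun x => x ≠ l) (fun x => by simp)
          (fun v => size (R v))]
      rw [e1, e2]
      ring
    · rw [← hT3, leafrem' V r w G _ l u hleaf]
      congr 1
      funext v i
      by_cases hv : v.1 = u
      · simp [R', hv, msgF]
      · simp [R', hv]

theorem weighted {r d : ℕ} (hr : 2 ≤ r) (hd : 1 ≤ d) (w : Fin r → ℝ) (hw : ∀ i, 0 < w i)
    (hC : Cond w d) (n : ℕ) (T : SimpleGraph (Fin (n + 1))) (hT : T.IsTree)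
    (hdeg : ∀ v, dg T v ≤ d + 1) :
    Zf w (SimpleGraph.pathGraph (n + 1)) (fun _ _ => 1) ≤ Zf w T (fun _ _ => 1) := by
  obtain ⟨R, h1, ⟨h2, h3⟩, h4⟩ := bridgeD w d n (Fin (n + 1)) T (by simp) hT (fun _ => leaf)
    (fun v => ⟨trivial, by have := hdeg v; simpa [rd] using this⟩)
  have hs : size R = n + 1 := by rw [h1]; simp [size]
  have e1 : Zf w T (fun _ _ => 1) = ∑ i, w i * msgF w R i := by rw [← h4]; rfl
  rw [path_eq, e1]
  have := main hr hw hd hC R h2 0 (fun _ => 1) Q.one (by omega)
  simp only [ip, one_mul, hs, Nat.add_sub_cancel] at this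
  rw [msgF_L]
  exact this

/-- Bernoulli: a linear condition which is enough. -/
theorem bern {d : ℕ} {a b R : ℝ} (ha : 0 < a) (hab : a < b) (hR : (d : ℝ) * b ≤ b + R)
    (hR0 : 0 ≤ R) : a * (b + R) ^ d ≤ b * (a + R) ^ d := by
  have hb : 0 < b := ha.trans hab
  have hbR : 0 < b + R := by linarith
  have h1 : 1 + (d : ℝ) * ((a - b) / (b + R)) ≤ (1 + (a - b) / (b + R)) ^ d := by
    apply one_add_mul_le_pow
    rw [le_div_iff₀ hbR]
    linarith
  have h2 : 1 + (a - b) / (b + R) = (a + R) / (b + R) := by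
    field_simp
    ring
  have h3 : a / b ≤ 1 + (d : ℝ) * ((a - b) / (b + R)) := by
    have : (d : ℝ) * ((b - a) / (b + R)) ≤ (b - a) / b := by
      rw [← mul_div_assoc, div_le_div_iff₀ hbR hb]
      nlinarith
    have e : (a - b) / (b + R) = -((b - a) / (b + R)) := by rw [← neg_div]; ring
    have e2 : a / b = 1 - (b - a) / b := by field_simp; ring
    rw [e, e2]
    linarith
  have h4 : a / b ≤ (a + R) ^ d / (b + R) ^ d := by
    rw [← div_pow, ← h2]
    exact h3.trans h1
  rw [div_le_div_iff₀ hb (by positivity)] at h4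
  linarith

theorem final {r d : ℕ} (hr : 2 ≤ r) (hd : 1 ≤ d) (W : Type) [Fintype W] (p : W → Fin r)
    (hp : Function.Surjective p)
    (hC : ∀ i j : Fin r, Nat.card {w : W // p w = i} < Nat.card {w : W // p w = j} →
      Nat.card {w : W // p w = i} * (Nat.card {w : W // p w = j} +
          ∑ k ∈ univ.filter (fun k => k ≠ i ∧ k ≠ j),
            min (Nat.card {w : W // p w = k}) (Nat.card {w : W // p w = j})) ^ d
        ≤ Nat.card {w : W // p w = j} * (Nat.card {w : W // p w = i} +
          ∑ k ∈ univ.filter (fun k => k ≠ i ∧ k ≠ j),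
            min (Nat.card {w : W // p w = k}) (Nat.card {w : W // p w = j})) ^ d)
    (n : ℕ) (T : SimpleGraph (Fin n)) (hT : T.IsTree)
    (hdeg : ∀ v, (T.neighborSet v).ncard ≤ d + 1) :
    Nat.card {f : Fin n → W //
        ∀ a b : Fin n, (SimpleGraph.pathGraph n).Adj a b → p (f a) ≠ p (f b)}
      ≤ Nat.card {f : Fin n → W // ∀ a b : Fin n, T.Adj a b → p (f a) ≠ p (f b)} := by
  classical
  obtain _ | n := n
  · exfalso
    obtain ⟨v⟩ := hT.connected.nonempty
    exact v.elim0
  have hcpos : ∀ i : Fin r, 0 < Nat.card {w : W // p w = i} := by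
    intro i
    obtain ⟨w, hw⟩ := hp i
    have : Nonempty {w : W // p w = i} := ⟨⟨w, hw⟩⟩
    exact Nat.card_pos
  have hCr : Cond (fun i : Fin r => (Nat.card {w : W // p w = i} : ℝ)) d := by
    intro i j hij
    beta_reduce at hij
    have h := hC i j (by exact_mod_cast hij)
    have e : Rr (fun i : Fin r => (Nat.card {w : W // p w = i} : ℝ)) i j
        = ((∑ k ∈ univ.filter (fun k => k ≠ i ∧ k ≠ j),
            min (Nat.card {w : W // p w = k}) (Nat.card {w : W // p w = j}) : ℕ) : ℝ) := by
      unfold Rr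
      push_cast
      rfl
    rw [e]
    beta_reduce
    exact_mod_cast h
  have key := weighted hr hd (fun i : Fin r => (Nat.card {w : W // p w = i} : ℝ))
    (fun i => by exact_mod_cast hcpos i) hCr n T hT hdeg
  have h1 := hom' r W p (Fin (n + 1)) (SimpleGraph.pathGraph (n + 1))
  have h2 := hom' r W p (Fin (n + 1)) T
  have : ((Nat.card {f : Fin (n + 1) → W //
            ∀ a b : Fin (n + 1), (SimpleGraph.pathGraph (n + 1)).Adj a b → p (f a) ≠ p (f b)} : ℕ) : ℝ)
          ≤ ((Nat.card {f : Fin (n + 1) → W //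
            ∀ a b : Fin (n + 1), T.Adj a b → p (f a) ≠ p (f b)} : ℕ) : ℝ) := by
    rw [h1, h2]
    exact key
  exact_mod_cast this

/-- the condition holds if at least `d` parts have the maximal size -/
theorem cond_of_max {r d : ℕ} (s : Fin r → ℕ)
    (hmax : d ≤ (univ.filter (fun i : Fin r => ∀ k, s k ≤ s i)).card)
    (hs : ∀ i, 0 < s i) (i j : Fin r) (hij : s i < s j) :
    s i * (s j + ∑ k ∈ univ.filter (fun k => k ≠ i ∧ k ≠ j), min (s k) (s j)) ^ d
      ≤ s j * (s i + ∑ k ∈ univ.filter (fun k => k ≠ i ∧ k ≠ j), min (s k) (s j)) ^ d := by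
  classical
  set R := ∑ k ∈ univ.filter (fun k => k ≠ i ∧ k ≠ j), min (s k) (s j) with hR
  have h1 : d * s j ≤ s j + R := by
    have hsub : (univ.filter (fun i : Fin r => ∀ k, s k ≤ s i)).erase j
        ⊆ univ.filter (fun k => k ≠ i ∧ k ≠ j) := by
      intro k hk
      rw [Finset.mem_erase, Finset.mem_filter] at hk
      rw [Finset.mem_filter]
      refine ⟨mem_univ _, ?_, hk.1⟩
      rintro rfl
      have := hk.2.2 j
      omega
    have h2 : ∑ k ∈ (univ.filter (fun i : Fin r => ∀ k, s k ≤ s i)).erase j, min (s k) (s j) ≤ R :=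
      Finset.sum_le_sum_of_subset hsub
    have h3 : ∑ k ∈ (univ.filter (fun i : Fin r => ∀ k, s k ≤ s i)).erase j, min (s k) (s j)
        = ((univ.filter (fun i : Fin r => ∀ k, s k ≤ s i)).erase j).card * s j := by
      rw [Finset.sum_const_nat]
      intro k hk
      rw [Finset.mem_erase, Finset.mem_filter] at hk
      exact min_eq_right (hk.2.2 j)
    have h4 : d ≤ ((univ.filter (fun i : Fin r => ∀ k, s k ≤ s i)).erase j).card + 1 := by
      have := Finset.pred_card_le_card_erase (s := univ.filter (fun i : Fin r => ∀ k, s k ≤ s i))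
        (a := j)
      omega
    calc d * s j ≤ (((univ.filter (fun i : Fin r => ∀ k, s k ≤ s i)).erase j).card + 1) * s j :=
          Nat.mul_le_mul_right _ h4
      _ = s j + ∑ k ∈ (univ.filter (fun i : Fin r => ∀ k, s k ≤ s i)).erase j,
            min (s k) (s j) := by rw [h3]; ring
      _ ≤ s j + R := by omega
  have h5 := bern (d := d) (a := (s i : ℝ)) (b := (s j : ℝ)) (R := (R : ℝ))
    (by exact_mod_cast hs i) (by exact_mod_cast hij) (by exact_mod_cast h1) (by positivity)
  exact_mod_cast h5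

end Pool.Agent.TH886.HLD
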